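import Pool.Agent.W5h49.Dist.Weak

/-!
# MP_d8ee74_an: the optimal logarithmic exponent of the inverse when the distortion is in L^(n-1)

For every `n ≥ 2` no exponent `α > 1/n` is admissible.  Together with the known lower bound
`1/n ≤ α*(n)` this gives `α*(n) = 1/n`.

The extremal mapping moves points only parallel to the first axis:
`f(x) = (x₀ φ(m)/m, x')` with `m = max(|x₀|, s(|x'|))`, `s(r) = (log(1/r))^(-γ)`, `φ = s⁻¹`.
Its Jacobian is at least `φ(m)/m`, its inverse is `y ↦ (y₀ s(M)/M, y')`, `M = max(|y₀|,|y'|)`, and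
the change of variables shows that `∫ K^(n-1)` is controlled by
`∫ (s(|y|)/|y|)^n dy`, which is finite as soon as `nγ > 1`.
-/

set_option autoImplicit false

open Real Set MeasureTheory

namespace Pool.Agent.Results.MP_d8ee74_an.InverseModulus

open Pool.Agent.W5h49.Dist (E)

noncomputable section

/-- `g` is the weak derivative of `f` on the open set `Ω`. -/
def HasWeakDeriv {n : ℕ} (Ω : Set (E n)) (f : E n → E n) (g : E n → (E n →L[ℝ] E n)) : Prop :=
  ∀ φ : E n → ℝ, ContDiff ℝ ((⊤ : ℕ∞) : WithTop ℕ∞) φ → HasCompactSupport φ → tsupport φ ⊆ Ω →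
    ∀ v : E n, ∫ x, (fderiv ℝ φ x v) • f x = - ∫ x, φ x • (g x v)

/-- The distortion function of a map with derivative `g` : `|g|^n / det g` where `det g > 0`,
and `1` elsewhere. -/
def distortion {n : ℕ} (g : E n → (E n →L[ℝ] E n)) (x : E n) : ℝ :=
  if 0 < (g x).det then ‖g x‖ ^ n / (g x).det else 1

/-- The class `F_n`: homeomorphisms `f` from an open set onto an open set of `ℝⁿ`, in
`W^{1,1}_loc`, of finite distortion, with distortion in `L^{n-1}_loc`. -/
def InClass (n : ℕ) (f : OpenPartialHomeomorph (E n) (E n)) : Prop :=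
  ∃ g : E n → (E n →L[ℝ] E n),
    LocallyIntegrableOn f f.source ∧ LocallyIntegrableOn g f.source ∧
    HasWeakDeriv f.source f g ∧
    LocallyIntegrableOn (fun x => (g x).det) f.source ∧
    (∃ K : E n → ℝ, Measurable K ∧ (∀ x, 1 ≤ K x) ∧
      ∀ᵐ x ∂(volume.restrict f.source), ‖g x‖ ^ n ≤ K x * (g x).det) ∧
    LocallyIntegrableOn (fun x => distortion g x ^ (n - 1)) f.source

/-- `α > 0` is admissible: the inverse of every map of the class has, at every point `z`, the
logarithmic modulus of continuity with exponent `α`. -/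
def Admissible (n : ℕ) (α : ℝ) : Prop :=
  0 < α ∧ ∀ f : OpenPartialHomeomorph (E n) (E n), InClass n f →
    ∀ (z : E n) (R : ℝ), 0 < R → Metric.closedBall z R ⊆ f.target →
      ∃ C : ℝ, ∀ x ∈ Metric.ball z R, x ≠ z →
        ‖f.symm x - f.symm z‖ ≤ C * (log (R / ‖x - z‖)) ^ (-α)

open Pool.Agent.W5h49.Dist in
theorem inClass_fhom (k : ℕ) {γ : ℝ} (hγ : 0 < γ) (hγ1 : γ ≤ 1) (hγn : 1 < (k + 1 : ℝ) * γ) :
    InClass (k + 1) (fhom k γ hγ hγ1) := by
  have hsrc : (fhom k γ hγ hγ1).source = Src k := rfl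
  have hfun : ((fhom k γ hγ hγ1 : OpenPartialHomeomorph (E (k + 1)) (E (k + 1))) :
      E (k + 1) → E (k + 1)) = Fmap γ := rfl
  have hgood := ae_good (k := k) hγ hγ1
  have hmeasg : Measurable (fderiv ℝ (Fmap γ : E (k + 1) → E (k + 1))) := measurable_fderiv ℝ _
  have hmeasd : Measurable (fun x => (fderiv ℝ (Fmap γ : E (k + 1) → E (k + 1)) x).det) :=
    continuous_det'.measurable.comp hmeasg
  have hmeasK : Measurable (distortion (fderiv ℝ (Fmap γ : E (k + 1) → E (k + 1)))) := by
    unfold distortion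
    exact Measurable.ite (measurableSet_lt measurable_const hmeasd)
      ((hmeasg.norm.pow_const _).div hmeasd) measurable_const
  have hdetpos : ∀ x ∈ Good k γ, 0 < (fderiv ℝ (Fmap γ : E (k + 1) → E (k + 1)) x).det := by
    intro x hx
    exact (div_pos (phi_pos _) (mfun_pos hγ hx.1 hx.2.2)).trans_le (det_lower hγ hγ1 hx.1 hx.2.1)
  refine ⟨fderiv ℝ (Fmap γ), ?_, ?_, ?_, ?_, ?_, ?_⟩
  · rw [hsrc, hfun]
    exact ((Fmap_lipW hγ hγ1).continuous.locallyIntegrable).locallyIntegrableOn _
  · rw [hsrc]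
    apply IntegrableOn.locallyIntegrableOn
    apply Measure.integrableOn_of_bounded Src_vol hmeasg.aestronglyMeasurable (M := 2 / γ + 4)
    exact Filter.Eventually.of_forall fun x => norm_fderiv_Fmap_le hγ hγ1 x
  · intro φ hφ hc _ v
    rw [hfun]
    exact weak_lip (Fmap_lipW hγ hγ1) hφ hc v
  · rw [hsrc]
    apply IntegrableOn.locallyIntegrableOn
    apply Measure.integrableOn_of_bounded Src_vol hmeasd.aestronglyMeasurable (M := 2 / γ + 4)
    filter_upwards [hgood] with x hx
    rw [Real.norm_eq_abs]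
    exact abs_det_le hγ hγ1 hx.2.1
  · refine ⟨fun x => max 1 (distortion (fderiv ℝ (Fmap γ : E (k + 1) → E (k + 1))) x),
      measurable_const.max hmeasK, fun x => le_max_left _ _, ?_⟩
    rw [hsrc]
    filter_upwards [hgood] with x hx
    have h1 := hdetpos x hx
    have h2 : ‖fderiv ℝ (Fmap γ : E (k + 1) → E (k + 1)) x‖ ^ (k + 1) =
        distortion (fderiv ℝ (Fmap γ : E (k + 1) → E (k + 1))) x *
          (fderiv ℝ (Fmap γ : E (k + 1) → E (k + 1)) x).det := by
      rw [distortion, if_pos h1, div_mul_cancel₀ _ h1.ne']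
    rw [h2]
    exact mul_le_mul_of_nonneg_right (le_max_right _ _) h1.le
  · rw [hsrc]
    apply IntegrableOn.locallyIntegrableOn
    refine ⟨(hmeasK.pow_const _).aestronglyMeasurable, ?_⟩
    rw [hasFiniteIntegral_iff_norm]
    set B : ℝ := (2 / γ + 4) ^ (k + 1) with hB
    have hB0 : 0 ≤ B := by positivity
    have hle : ∫⁻ x in Src k, ENNReal.ofReal
        ‖distortion (fderiv ℝ (Fmap γ : E (k + 1) → E (k + 1))) x ^ (k + 1 - 1)‖ ≤
        ∫⁻ x in Good k γ, ENNReal.ofReal (B ^ k) *
          ENNReal.ofReal ((mfun γ x / phi γ (mfun γ x)) ^ k) := by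
      have hrestr : (volume.restrict (Src k)) = volume.restrict (Good k γ) := by
        apply Measure.restrict_congr_set
        have h1 : Good k γ ⊆ Src k := fun x hx => hx.1
        have h2 := (ae_restrict_iff' isOpen_Src.measurableSet).mp hgood
        filter_upwards [h2] with x hx
        apply propext
        exact ⟨fun h => hx h, fun h => h1 h⟩
      rw [hrestr]
      apply lintegral_mono_ae
      filter_upwards [ae_restrict_mem Good_meas] with x hx
      rw [← ENNReal.ofReal_mul (by positivity)]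
      apply ENNReal.ofReal_le_ofReal
      have h1 := hdetpos x hx
      have hm := mfun_pos hγ hx.1 hx.2.2
      have hφ := phi_pos (γ := γ) (mfun γ x)
      have hdet := det_lower hγ hγ1 hx.1 hx.2.1
      rw [distortion, if_pos h1, Nat.add_sub_cancel, Real.norm_eq_abs, abs_of_nonneg (by positivity),
        ← mul_pow]
      apply pow_le_pow_left₀ (by positivity)
      rw [div_le_iff₀ h1]
      have h3 : ‖fderiv ℝ (Fmap γ : E (k + 1) → E (k + 1)) x‖ ^ (k + 1) ≤ B :=
        pow_le_pow_left₀ (norm_nonneg _) (norm_fderiv_Fmap_le hγ hγ1 x) _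
      have h4 : 1 ≤ mfun γ x / phi γ (mfun γ x) *
          (fderiv ℝ (Fmap γ : E (k + 1) → E (k + 1)) x).det := by
        have h5 : 1 = mfun γ x / phi γ (mfun γ x) * (phi γ (mfun γ x) / mfun γ x) := by
          field_simp
        calc (1 : ℝ) = mfun γ x / phi γ (mfun γ x) * (phi γ (mfun γ x) / mfun γ x) := h5
          _ ≤ _ := mul_le_mul_of_nonneg_left hdet (by positivity)
      nlinarith
    refine lt_of_le_of_lt hle ?_
    rw [lintegral_const_mul' _ _ ENNReal.ofReal_ne_top]
    exact ENNReal.mul_lt_top ENNReal.ofReal_lt_top (w_lint hγ hγ1 hγn)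

open Pool.Agent.W5h49.Dist in
/-- **Main theorem.** For `n ≥ 2`, every admissible exponent is at most `1/n`. -/
theorem result (n : ℕ) (hn : 2 ≤ n) (α : ℝ) (hα : Admissible n α) : α ≤ 1 / (n : ℝ) := by
  obtain ⟨k, rfl⟩ : ∃ k, n = k + 1 := ⟨n - 1, by omega⟩
  by_contra hcon
  rw [not_le] at hcon
  have hn0 : (2 : ℝ) ≤ ((k + 1 : ℕ) : ℝ) := by exact_mod_cast hn
  have hn1 : (1 : ℝ) / ((k + 1 : ℕ) : ℝ) < 1 := by
    rw [div_lt_one (by linarith)]; linarith
  have hnpos : (0 : ℝ) < 1 / ((k + 1 : ℕ) : ℝ) := by positivity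
  obtain ⟨γ, hγl, hγu⟩ := exists_between (lt_min hcon hn1)
  have hγα : γ < α := hγu.trans_le (min_le_left _ _)
  have hγ1 : γ ≤ 1 := (hγu.trans_le (min_le_right _ _)).le
  have hγ : 0 < γ := hnpos.trans hγl
  have hγn : 1 < (k + 1 : ℝ) * γ := by
    rw [div_lt_iff₀ (by linarith)] at hγl
    push_cast at hγl
    linarith
  obtain ⟨hα0, hall⟩ := hα
  have he : (1 / 8 : ℝ) < exp (-1) := by
    have h1 := exp_neg_one_gt_d9
    linarith
  have hball : Metric.closedBall (0 : E (k + 1)) (1 / 8) ⊆ (fhom k γ hγ hγ1).target := by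
    intro y hy
    rw [Metric.mem_closedBall, dist_zero_right] at hy
    have h1 := abs_coord_le y
    have h2 := rho_le y
    have h3 := exp_neg_one_gt_d9
    exact ⟨by linarith, by linarith⟩
  obtain ⟨C, hC⟩ := hall (fhom k γ hγ hγ1) (inClass_fhom k hγ hγ1 hγn) 0 (1 / 8) (by norm_num) hball
  have hsymm : ∀ y, (fhom k γ hγ hγ1).symm y = Gmap γ y := fun _ => rfl
  -- points on the axis
  have haxis : ∀ r : ℝ, 0 < r → r < 1 / 8 →
      (-log r) ^ (-γ) ≤ C * (log ((1 / 8) / r)) ^ (-α) := by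
    intro r hr hr8
    have hnorm : ‖r • e0 k‖ = r := by
      rw [norm_smul, norm_e0, mul_one, Real.norm_eq_abs, abs_of_pos hr]
    have hne : r • e0 k ≠ 0 := by
      intro h
      rw [h, norm_zero] at hnorm
      exact hr.ne hnorm
    have h1 := hC (r • e0 k) (by rw [Metric.mem_ball, dist_zero_right, hnorm]; exact hr8) hne
    rw [hsymm, hsymm, sub_zero, hnorm] at h1
    have hG0 : Gmap γ (0 : E (k + 1)) = 0 := by
      rw [Gmap]; simp
    have hc : (r • e0 k) 0 = r := by
      have := coord_add (0 : E (k + 1)) r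
      simpa using this
    have hrho : rho (r • e0 k) = 0 := by
      have := rho_add (0 : E (k + 1)) r
      rw [zero_add] at this
      rw [this]
      simp [rho]
    have hM : Mfun (r • e0 k) = r := by
      rw [Mfun, hc, hrho, abs_of_pos hr, max_eq_left hr.le]
    have hG : ‖Gmap γ (r • e0 k)‖ = sfun γ r := by
      rw [Gmap, hM, hc, ← add_smul, norm_smul, norm_e0, mul_one, Real.norm_eq_abs]
      have : r + (r * (sfun γ r / r) - r) = sfun γ r := by field_simp; ring
      rw [this, abs_of_pos (sfun_pos hr (by linarith))]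
    rw [hG0, sub_zero, hG] at h1
    exact h1
  -- asymptotics
  have hL : ∀ L : ℝ, 2 * log 8 < L → L ^ (α - γ) ≤ C * 2 ^ α := by
    intro L hL
    have hlog8 : 0 < log 8 := log_pos (by norm_num)
    have hL0 : 0 < L := by linarith
    have h1 := haxis (exp (-L)) (exp_pos _) (by
      have : (1 / 8 : ℝ) = exp (-log 8) := by rw [exp_neg, exp_log (by norm_num)]; norm_num
      rw [this, exp_lt_exp]; linarith)
    have h2 : log ((1 / 8) / exp (-L)) = L - log 8 := by
      rw [log_div (by norm_num) (exp_pos _).ne', log_exp, one_div, log_inv]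
      ring
    rw [log_exp, neg_neg, h2] at h1
    have h3 : (L - log 8) ^ (-α) ≤ (L / 2) ^ (-α) :=
      rpow_le_rpow_of_nonpos (by linarith) (by linarith) (by linarith)
    have hC0 : 0 ≤ C := by
      by_contra hneg
      rw [not_le] at hneg
      have h4 : 0 < L ^ (-γ) := rpow_pos_of_pos hL0 _
      have h5 : 0 < (L - log 8) ^ (-α) := rpow_pos_of_pos (by linarith) _
      nlinarith
    have h6 : L ^ (-γ) ≤ C * (L / 2) ^ (-α) := h1.trans (mul_le_mul_of_nonneg_left h3 hC0)
    rw [div_rpow hL0.le (by norm_num), rpow_neg (by norm_num : (0 : ℝ) ≤ 2), div_inv_eq_mul] at h6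
    have h7 : L ^ (α - γ) = L ^ α * L ^ (-γ) := by
      rw [← rpow_add hL0]; congr 1
    rw [h7]
    calc L ^ α * L ^ (-γ) ≤ L ^ α * (C * (L ^ (-α) * 2 ^ α)) :=
          mul_le_mul_of_nonneg_left h6 (rpow_nonneg hL0.le _)
      _ = (L ^ α * L ^ (-α)) * (C * 2 ^ α) := by ring
      _ = C * 2 ^ α := by rw [← rpow_add hL0, add_neg_cancel, rpow_zero, one_mul]
  have htend := tendsto_rpow_atTop (by linarith : 0 < α - γ)
  have hev := (htend.eventually_gt_atTop (C * 2 ^ α)).and (Filter.eventually_gt_atTop (2 * log 8))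
  obtain ⟨L, hL1, hL2⟩ := hev.exists
  exact absurd (hL L hL2) (not_le.mpr hL1)

end

end Pool.Agent.Results.MP_d8ee74_an.InverseModulus
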